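import Pool.Agent.H17.FR.Targets

/-! LPM (helper56): local principality from the maximal ideals of the charts. -/

open SC FR

namespace Pool.Agent.H56.FR

section

variable {k K : Type} [Field k] [Field K] [Algebra k K]

/-- the ideal of the `r` with a partition of `r` -/
def pid (A : Subalgebra k K) (s : Sys K) : Ideal A where
  carrier := {r | ∃ q : Fin s.r → K, (∀ a b, q a * s.s b ∈ A) ∧ ∑ a, q a * s.s a = (r : K)}
  zero_mem' := ⟨fun _ => 0, fun a b => by rw [zero_mul]; exact A.zero_mem, by simp⟩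
  add_mem' := by
    rintro x y ⟨q, h1, h2⟩ ⟨q', h1', h2'⟩
    refine ⟨fun a => q a + q' a, fun a b => ?_, ?_⟩
    · rw [add_mul]
      exact A.add_mem (h1 a b) (h1' a b)
    · simp only [add_mul]
      rw [Finset.sum_add_distrib, h2, h2']
      rfl
  smul_mem' := by
    rintro c x ⟨q, h1, h2⟩
    refine ⟨fun a => (c : K) * q a, fun a b => ?_, ?_⟩
    · rw [mul_assoc]
      exact A.mul_mem c.2 (h1 a b)
    · simp only [mul_assoc]
      rw [← Finset.mul_sum, h2]
      rfl

theorem exists_part (A : Subalgebra k K) (s : Sys K)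
    (h : ∀ p : Ideal A, p.IsMaximal → ∃ a, s.s a ≠ 0 ∧ ∀ b, ∃ c d : A,
      d ∉ p ∧ (d : K) * s.s b = c * s.s a) :
    ∃ q : Fin s.r → K, (∀ a b, q a * s.s b ∈ A) ∧ ∑ a, q a * s.s a = 1 := by
  classical
  have htop : pid A s = ⊤ := by
    by_contra hne
    obtain ⟨p, hp, hle⟩ := Ideal.exists_le_maximal _ hne
    obtain ⟨a, ha, hab⟩ := h p hp
    choose c d hd hcd using hab
    have hprod : ∏ b, d b ∉ p := by
      intro hmem
      obtain ⟨b, -, hb⟩ := (hp.isPrime.prod_mem_iff).1 hmem
      exact hd b hb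
    apply hprod
    apply hle
    refine ⟨fun x => if x = a then ((∏ b, d b : A) : K) / s.s a else 0, fun x y => ?_, ?_⟩
    · beta_reduce
      by_cases hx : x = a
      · rw [if_pos hx]
        have h1 : ((∏ b, d b : A) : K) / s.s a * s.s y =
            (((∏ b ∈ Finset.univ.erase y, d b) * c y : A) : K) := by
          have h2 : (∏ b, d b : A) = d y * ∏ b ∈ Finset.univ.erase y, d b :=
            (Finset.mul_prod_erase _ _ (Finset.mem_univ y)).symm
          rw [h2]
          push_cast
          rw [div_mul_eq_mul_div, div_eq_iff ha]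
          have h3 := hcd y
          calc ((d y : K) * ∏ b ∈ Finset.univ.erase y, (d b : K)) * s.s y
              = (∏ b ∈ Finset.univ.erase y, (d b : K)) * ((d y : K) * s.s y) := by ring
            _ = _ := by rw [h3]; ring
        rw [h1]
        exact Subtype.prop _
      · rw [if_neg hx, zero_mul]
        exact A.zero_mem
    · beta_reduce
      rw [Finset.sum_eq_single a]
      · rw [if_pos rfl, div_mul_cancel₀ _ ha]
      · intro b _ hb
        rw [if_neg hb, zero_mul]
      · intro hh
        exact absurd (Finset.mem_univ a) hh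
  have h1 : (1 : A) ∈ pid A s := by
    rw [htop]
    trivial
  obtain ⟨q, hq, hq1⟩ := h1
  exact ⟨q, hq, hq1⟩

theorem pow_up (W : Submodule k K) {y : K} (hy : y ∈ W) {x : K} {n m : ℕ}
    (h : x * y ^ n ∈ W ^ n) (hle : n ≤ m) : x * y ^ m ∈ W ^ m := by
  obtain ⟨d, rfl⟩ := Nat.exists_eq_add_of_le hle
  rw [pow_add y, ← mul_assoc, pow_add W]
  exact Submodule.mul_mem_mul h (Submodule.pow_mem_pow W hy d)

theorem chart_pow (W : Submodule k K) {y : K} (hy : y ∈ W) (hy0 : y ≠ 0) {x : K}
    (hx : x ∈ Algebra.adjoin k {z : K | ∃ u ∈ W, z = u / y}) :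
    ∃ n, x * y ^ n ∈ W ^ n := by
  have mono : ∀ {x : K} {n : ℕ}, x * y ^ n ∈ W ^ n → ∀ m, x * y ^ (n + m) ∈ W ^ (n + m) := by
    intro x n h m
    rw [pow_add y, ← mul_assoc, pow_add W]
    exact Submodule.mul_mem_mul h (Submodule.pow_mem_pow W hy m)
  refine Algebra.adjoin_induction (p := fun x _ => ∃ n, x * y ^ n ∈ W ^ n) ?_ ?_ ?_ ?_ hx
  · rintro _ ⟨u, hu, rfl⟩
    refine ⟨1, ?_⟩
    rw [pow_one, pow_one, div_mul_cancel₀ _ hy0]
    exact hu
  · intro c
    refine ⟨0, ?_⟩
    rw [pow_zero, pow_zero, mul_one]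
    exact Submodule.algebraMap_mem c
  · rintro x z _ _ ⟨n, hn⟩ ⟨m, hm⟩
    refine ⟨n + m, ?_⟩
    rw [add_mul]
    refine add_mem (mono hn m) ?_
    rw [add_comm n m]
    exact mono hm n
  · rintro x z _ _ ⟨n, hn⟩ ⟨m, hm⟩
    refine ⟨n + m, ?_⟩
    have h1 : x * z * y ^ (n + m) = (x * y ^ n) * (z * y ^ m) := by
      rw [pow_add]
      ring
    rw [h1, pow_add]
    exact Submodule.mul_mem_mul hn hm

theorem prod_mem_pow (W : Submodule k K) {ι : Type} (T : Finset ι) (f : ι → K)
    (hf : ∀ i ∈ T, f i ∈ W) : ∏ i ∈ T, f i ∈ W ^ T.card := by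
  classical
  induction T using Finset.induction_on with
  | empty =>
    rw [Finset.prod_empty, Finset.card_empty, pow_zero]
    exact Submodule.one_le.1 le_rfl
  | insert a T ha ih =>
    rw [Finset.prod_insert ha, Finset.card_insert_of_notMem ha, pow_succ']
    exact Submodule.mul_mem_mul (hf a (Finset.mem_insert_self a T))
      (ih fun i hi => hf i (Finset.mem_insert_of_mem hi))

end

theorem lpm : T_LPM := by
  intro k K _ _ _ N w s ⟨i1, hi1⟩ hmax
  classical
  set W := Submodule.span k (Set.range w) with hW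
  have hwW : ∀ i, w i ∈ W := fun i => Submodule.subset_span ⟨i, rfl⟩
  -- partitions on the charts
  have hpart : ∀ i : Fin (N + 1), ∃ (q : Fin s.r → K) (n : ℕ), w i ≠ 0 →
      (∀ a b, q a * s.s b * w i ^ n ∈ W ^ n) ∧ ∑ a, q a * s.s a = 1 := by
    intro i
    by_cases hi : w i = 0
    · exact ⟨fun _ => 0, 0, fun h => absurd hi h⟩
    · obtain ⟨q, hq, hq1⟩ := exists_part _ s (hmax i hi)
      have h1 : ∀ a b, ∃ n, q a * s.s b * w i ^ n ∈ W ^ n := by
        intro a b
        refine chart_pow W (hwW i) hi ?_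
        refine Algebra.adjoin_mono ?_ (hq a b)
        rintro _ ⟨j, rfl⟩
        exact ⟨w j, hwW j, rfl⟩
      choose n hn using h1
      refine ⟨q, ∑ a, ∑ b, n a b, fun _ => ⟨fun a b => ?_, hq1⟩⟩
      have h2 : n a b ≤ ∑ a, ∑ b, n a b :=
        (Finset.single_le_sum (f := fun b => n a b) (fun _ _ => Nat.zero_le _)
          (Finset.mem_univ b)).trans
          (Finset.single_le_sum (f := fun a => ∑ b, n a b) (fun _ _ => Nat.zero_le _)
            (Finset.mem_univ a))
      exact pow_up W (hwW i) (hn a b) h2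
  choose q n hqn using hpart
  -- a common exponent
  let M : ℕ := ∑ i, n i
  have hM : ∀ i, w i ≠ 0 → ∀ a b, q i a * s.s b * w i ^ M ∈ W ^ M := by
    intro i hi a b
    have h2 : n i ≤ M := Finset.single_le_sum (f := n) (fun _ _ => Nat.zero_le _)
      (Finset.mem_univ i)
    exact pow_up W (hwW i) ((hqn i hi).1 a b) h2
  obtain ⟨E, hE⟩ : ∃ E, E = (N + 1) * (M + 1) := ⟨_, rfl⟩
  refine ⟨E, ?_⟩
  -- the set of good elements is a submodule
  let G : Submodule k K :=
    { carrier := {x | ∃ q : Fin s.r → K, (∀ i j, q i * s.s j ∈ W ^ E) ∧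
        ∑ i, q i * s.s i = x}
      zero_mem' := ⟨fun _ => 0, fun a b => by rw [zero_mul]; exact Submodule.zero_mem _, by simp⟩
      add_mem' := by
        rintro x y ⟨q, h1, h2⟩ ⟨q', h1', h2'⟩
        refine ⟨fun a => q a + q' a, fun a b => ?_, ?_⟩
        · change (q a + q' a) * s.s b ∈ W ^ E
          rw [add_mul]
          exact add_mem (h1 a b) (h1' a b)
        · simp only [add_mul]
          rw [Finset.sum_add_distrib, h2, h2']
      smul_mem' := by
        rintro c x ⟨q, h1, h2⟩
        refine ⟨fun a => c • q a, fun a b => ?_, ?_⟩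
        · rw [smul_mul_assoc]
          exact Submodule.smul_mem _ _ (h1 a b)
        · simp only [smul_mul_assoc]
          rw [← Finset.smul_sum, h2] }
  have hG : W ^ E ≤ G := by
    rw [hW, Submodule.span_pow, Submodule.span_le]
    intro x hx
    rw [Set.mem_pow] at hx
    obtain ⟨f, rfl⟩ := hx
    rw [List.prod_ofFn]
    have hf : ∀ i, ∃ j, w j = (f i : K) := fun i => (f i).2
    choose g hg using hf
    simp only [← hg]
    -- pigeonhole
    obtain ⟨j, hj⟩ := Fintype.exists_le_card_fiber_of_mul_le_card g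
      (n := M + 1) (by rw [Fintype.card_fin, Fintype.card_fin, hE])
    have hsplit : ∏ i, w (g i) = w j ^ (Finset.univ.filter fun i => g i = j).card *
        ∏ i ∈ Finset.univ.filter (fun i => ¬ g i = j), w (g i) := by
      rw [← Finset.prod_filter_mul_prod_filter_not Finset.univ (fun i => g i = j)]
      congr 1
      rw [Finset.prod_congr rfl (fun i hi => by rw [(Finset.mem_filter.1 hi).2] :
        ∀ i ∈ Finset.univ.filter (fun i => g i = j), w (g i) = w j), Finset.prod_const]
    by_cases hwj : w j = 0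
    · have h0 : ∏ i, w (g i) = 0 := by
        rw [hsplit, hwj, zero_pow (by omega), zero_mul]
      change ∏ i, w (g i) ∈ G
      rw [h0]
      exact G.zero_mem
    · obtain ⟨c, hc⟩ := Nat.exists_eq_add_of_le (show M ≤ (Finset.univ.filter
        fun i => g i = j).card by omega)
      let x' : K := w j ^ c * ∏ i ∈ Finset.univ.filter (fun i => ¬ g i = j), w (g i)
      have hx' : x' ∈ W ^ (c + (Finset.univ.filter (fun i => ¬ g i = j)).card) := by
        rw [pow_add]
        exact Submodule.mul_mem_mul (Submodule.pow_mem_pow W (hwW j) c)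
          (prod_mem_pow W _ _ fun i _ => hwW (g i))
      have hcard : M + (c + (Finset.univ.filter (fun i => ¬ g i = j)).card) = E := by
        have h1 := Finset.card_filter_add_card_filter_not (s := (Finset.univ :
          Finset (Fin E))) (fun i => g i = j)
        rw [Finset.card_univ, Fintype.card_fin] at h1
        omega
      refine ⟨fun a => x' * (q j a * w j ^ M), fun a b => ?_, ?_⟩
      · have h1 : x' * (q j a * w j ^ M) * s.s b = (q j a * s.s b * w j ^ M) * x' := by ring
        change x' * (q j a * w j ^ M) * s.s b ∈ W ^ E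
        rw [← hcard, pow_add W M, h1]
        exact Submodule.mul_mem_mul (hM j hwj a b) hx'
      · have h1 : ∑ a, x' * (q j a * w j ^ M) * s.s a = (x' * w j ^ M) * ∑ a, q j a * s.s a := by
          rw [Finset.mul_sum]
          refine Finset.sum_congr rfl fun a _ => ?_
          ring
        rw [h1, (hqn j hwj).2, mul_one, hsplit, hc, pow_add]
        change w j ^ c * _ * w j ^ M = _
        ring
  intro x hx
  exact hG hx

end Pool.Agent.H56.FR
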