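import Pool.Agent.H17.FR.Targets

/-! HOM, RLT (helper56): homogeneous polynomials. -/

open SC FR

namespace Pool.Agent.H56.FR

theorem aeval_sum {k K : Type} [Field k] [Field K] [Algebra k K] {m : ℕ}
    (F : MvPolynomial (Fin m) k) (u : Fin m → K) :
    MvPolynomial.aeval u F = ∑ d ∈ F.support, F.coeff d • ∏ i, u i ^ d i := by
  rw [MvPolynomial.aeval_def, MvPolynomial.eval₂_eq']
  refine Finset.sum_congr rfl fun d _ => ?_
  rw [Algebra.smul_def]

theorem degree_of {k : Type} [Field k] {m n : ℕ} {F : MvPolynomial (Fin m) k}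
    (hF : F.IsHomogeneous n) {d : Fin m →₀ ℕ} (hd : d ∈ F.support) : ∑ i, d i = n := by
  have h1 : Finsupp.weight (1 : Fin m → ℕ) d = n := hF (MvPolynomial.mem_support_iff.1 hd)
  rw [Finsupp.weight_apply, Finsupp.sum_fintype _ _ (fun i => by simp)] at h1
  simpa using h1

theorem split {K : Type} [Field K] {m n : ℕ} (s : Fin m → ℕ) (hs : ∑ i, s i = n + 1) :
    ∃ (i : Fin m) (s' : Fin m → ℕ), ∑ j, s' j = n ∧
      ∀ u : Fin m → K, ∏ j, u j ^ s j = u i * ∏ j, u j ^ s' j := by
  classical
  have hex : ∃ i, s i ≠ 0 := by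
    by_contra h
    push Not at h
    simp [h] at hs
  obtain ⟨i, hi⟩ := hex
  obtain ⟨s', hs'⟩ : ∃ s' : Fin m → ℕ, ∀ j, s j = s' j + (if j = i then 1 else 0) := by
    refine ⟨fun j => if j = i then s j - 1 else s j, fun j => ?_⟩
    by_cases hj : j = i
    · subst hj
      simp only [if_true]
      omega
    · simp [hj]
  refine ⟨i, s', ?_, ?_⟩
  · have h1 : ∑ j, s j = ∑ j, (s' j + (if j = i then 1 else 0)) :=
      Finset.sum_congr rfl fun j _ => hs' j
    rw [Finset.sum_add_distrib, Finset.sum_ite_eq' Finset.univ i, if_pos (Finset.mem_univ i)] at h1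
    omega
  · intro u
    have h1 : ∏ j, u j ^ s j = ∏ j, (u j ^ s' j * u j ^ (if j = i then 1 else 0)) := by
      refine Finset.prod_congr rfl fun j _ => ?_
      rw [← pow_add, ← hs' j]
    rw [h1, Finset.prod_mul_distrib]
    have h2 : ∏ j, u j ^ (if j = i then 1 else 0) = u i := by
      rw [Finset.prod_eq_single i]
      · simp
      · intro j _ hj
        simp [hj]
      · intro h
        exact absurd (Finset.mem_univ i) h
    rw [h2, mul_comm]

theorem mem_pow {k K : Type} [Field k] [Field K] [Algebra k K] (W : Submodule k K) {m : ℕ}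
    (u : Fin m → K) (hu : ∀ i, u i ∈ W) : ∀ (n : ℕ) (s : Fin m → ℕ), ∑ i, s i = n →
      ∏ j, u j ^ s j ∈ W ^ n := by
  intro n
  induction n with
  | zero =>
    intro s hs
    have h1 : ∀ i, s i = 0 := by
      intro i
      have := Finset.single_le_sum (f := s) (fun j _ => Nat.zero_le _) (Finset.mem_univ i)
      omega
    simp only [h1, pow_zero, Finset.prod_const_one]
    exact Submodule.one_le.1 le_rfl
  | succ n ih =>
    intro s hs
    obtain ⟨i, s', hs', h⟩ := split (K := K) s hs
    rw [h u, pow_succ']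
    exact Submodule.mul_mem_mul (hu i) (ih s' hs')

theorem diff_mem {k K : Type} [Field k] [Field K] [Algebra k K] (W : Submodule k K) {m : ℕ}
    (u v : Fin m → K) (hu : ∀ i, u i ∈ W) (hv : ∀ i, v i ∈ W) :
    ∀ (n : ℕ) (s : Fin m → ℕ), ∑ i, s i = n + 1 →
      ∏ j, u j ^ s j - ∏ j, v j ^ s j ∈
        Submodule.span k (Set.range fun i => u i - v i) * W ^ n := by
  intro n
  induction n with
  | zero =>
    intro s hs
    obtain ⟨i, s', hs', h⟩ := split (K := K) s hs
    have h1 : ∀ i, s' i = 0 := by
      intro i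
      have := Finset.single_le_sum (f := s') (fun j _ => Nat.zero_le _) (Finset.mem_univ i)
      omega
    rw [h u, h v]
    simp only [h1, pow_zero, Finset.prod_const_one, mul_one]
    exact Submodule.subset_span ⟨i, rfl⟩
  | succ n ih =>
    intro s hs
    obtain ⟨i, s', hs', h⟩ := split (K := K) s hs
    rw [h u, h v]
    have h1 : u i * ∏ j, u j ^ s' j - v i * ∏ j, v j ^ s' j =
        (u i - v i) * ∏ j, u j ^ s' j + v i * (∏ j, u j ^ s' j - ∏ j, v j ^ s' j) := by ring
    rw [h1]
    refine add_mem (Submodule.mul_mem_mul (Submodule.subset_span ⟨i, rfl⟩)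
      (mem_pow W u hu _ s' hs')) ?_
    have h2 : Submodule.span k (Set.range fun i => u i - v i) * W ^ (n + 1) =
        W * (Submodule.span k (Set.range fun i => u i - v i) * W ^ n) := by
      rw [pow_succ', ← mul_assoc, ← mul_assoc, mul_comm W]
    rw [h2]
    exact Submodule.mul_mem_mul (hv i) (ih s' hs')

theorem hom : T_HOM := by
  intro k K _ _ _ W m e F hF u v hu hv
  rw [aeval_sum, aeval_sum, ← Finset.sum_sub_distrib]
  refine Submodule.sum_mem _ fun d hd => ?_
  rw [← smul_sub]
  exact Submodule.smul_mem _ _ (diff_mem W u v hu hv e d (degree_of hF hd))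

theorem aeval_scale {k K : Type} [Field k] [Field K] [Algebra k K] {m d : ℕ} (y : Fin m → K)
    {H : MvPolynomial (Fin m) k} (hH : H.IsHomogeneous d) :
    MvPolynomial.aeval (fun i => Polynomial.C (y i) * Polynomial.X) H =
      Polynomial.C (MvPolynomial.aeval y H) * Polynomial.X ^ d := by
  rw [aeval_sum, MvPolynomial.aeval_def, MvPolynomial.eval₂_eq', map_sum, Finset.sum_mul]
  refine Finset.sum_congr rfl fun s hs => ?_
  have h1 : ∏ i, (Polynomial.C (y i) * Polynomial.X : Polynomial K) ^ s i =
      Polynomial.C (∏ i, y i ^ s i) * Polynomial.X ^ d := by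
    rw [← degree_of hH hs, ← Finset.prod_pow_eq_pow_sum, map_prod, ← Finset.prod_mul_distrib]
    refine Finset.prod_congr rfl fun i _ => ?_
    rw [mul_pow, map_pow]
  rw [h1, ← mul_assoc]
  congr 1
  rw [Algebra.smul_def, map_mul]
  rfl

theorem rlt : T_RLT := by
  intro k K _ _ _ m y ht hm
  have htr : Algebra.trdeg k (Polynomial K) ≤ 3 := by
    have h1 := trdeg_add_eq k K (A := Polynomial K)
    rw [Polynomial.trdeg_of_isDomain] at h1
    rw [← h1]
    calc Algebra.trdeg k K + 1 ≤ 2 + 1 := by gcongr
      _ = 3 := by norm_num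
  have hdep : ¬ AlgebraicIndependent k
      (fun i : Fin m => (Polynomial.C (y i) * Polynomial.X : Polynomial K)) := by
    intro hind
    have h1 := hind.cardinalMk_le_trdeg.trans htr
    rw [Cardinal.mk_fin] at h1
    have h2 : m ≤ 3 := by exact_mod_cast h1
    omega
  rw [algebraicIndependent_iff] at hdep
  push Not at hdep
  obtain ⟨G, hG, hG0⟩ := hdep
  have hcoef : ∀ d, MvPolynomial.aeval y (MvPolynomial.homogeneousComponent d G) = 0 := by
    have h1 := congrArg (MvPolynomial.aeval
      (fun i : Fin m => (Polynomial.C (y i) * Polynomial.X : Polynomial K)))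
      (MvPolynomial.sum_homogeneousComponent G)
    rw [map_sum, hG] at h1
    have h2 : ∀ d, (MvPolynomial.aeval
        (fun i : Fin m => (Polynomial.C (y i) * Polynomial.X : Polynomial K)))
        (MvPolynomial.homogeneousComponent d G) =
          Polynomial.C (MvPolynomial.aeval y (MvPolynomial.homogeneousComponent d G)) *
            Polynomial.X ^ d := fun d =>
      aeval_scale y (MvPolynomial.homogeneousComponent_isHomogeneous d G)
    simp only [h2] at h1
    intro d
    by_cases hd : d < G.totalDegree + 1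
    · have h3 := congrArg (fun p => Polynomial.coeff p d) h1
      simp only [Polynomial.finset_sum_coeff, Polynomial.coeff_C_mul, Polynomial.coeff_X_pow,
        mul_ite, mul_one, mul_zero, Polynomial.coeff_zero] at h3
      rw [Finset.sum_ite_eq, if_pos (Finset.mem_range.2 hd)] at h3
      exact h3
    · rw [MvPolynomial.homogeneousComponent_eq_zero d G (by omega), map_zero]
  have hex : ∃ d, MvPolynomial.homogeneousComponent d G ≠ 0 := by
    by_contra hcon
    push Not at hcon
    apply hG0
    rw [← MvPolynomial.sum_homogeneousComponent G]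
    exact Finset.sum_eq_zero fun d _ => hcon d
  obtain ⟨d, hd⟩ := hex
  rcases d with _ | e
  · exfalso
    have h1 := hcoef 0
    rw [MvPolynomial.homogeneousComponent_zero] at h1 hd
    rw [MvPolynomial.aeval_C, map_eq_zero] at h1
    rw [h1] at hd
    exact hd (map_zero _)
  · exact ⟨e, _, hd, MvPolynomial.homogeneousComponent_isHomogeneous (e + 1) G, hcoef _⟩

end Pool.Agent.H56.FR
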