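import Pool.Agent.H56.FR.HOM

/-! NNS, NN (helper56): linear Noether normalisation. -/

open SC FR

namespace Pool.Agent.H56.FR

theorem aeval_line {k K : Type} [Field k] [Field K] [Algebra k K] {m n : ℕ} (c : Fin m → k) (z : K)
    {F : MvPolynomial (Fin m) k} (hF : F.IsHomogeneous n) :
    MvPolynomial.aeval (fun i => c i • z) F = (MvPolynomial.eval c F) • z ^ n := by
  rw [aeval_sum, MvPolynomial.eval_eq', Finset.sum_smul]
  refine Finset.sum_congr rfl fun d hd => ?_
  rw [mul_smul]
  congr 1
  rw [← degree_of hF hd, ← Finset.prod_pow_eq_pow_sum]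
  have h1 : ∀ i, (c i • z) ^ d i = algebraMap k K (c i ^ d i) * z ^ d i := by
    intro i
    rw [Algebra.smul_def, mul_pow, map_pow]
  simp only [h1]
  rw [Finset.prod_mul_distrib, ← map_prod, ← Algebra.smul_def]

theorem mulr {k K : Type} [Field k] [Field K] [Algebra k K] {M N P : Submodule k K}
    (h : N ≤ P) : M * N ≤ M * P := mul_le_mul' le_rfl h

theorem mull {k K : Type} [Field k] [Field K] [Algebra k K] {M N P : Submodule k K}
    (h : M ≤ N) : M * P ≤ N * P := mul_le_mul' h le_rfl

theorem nns_step {k K : Type} [Field k] [Field K] [Algebra k K] (W Y' : Submodule k K) (z : K)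
    (hz : z ∈ W) (n : ℕ)
    (h : W ^ (n + 1) ≤ Y' * W ^ n ⊔ Submodule.span k {z} * W ^ n) (i : ℕ) :
    W ^ (n + i + 1) ≤ Y' * W ^ (n + i) ⊔ Submodule.span k {z ^ (i + 1)} * W ^ n := by
  induction i with
  | zero => simpa using h
  | succ i ih =>
    have h1 : W ^ (n + (i + 1) + 1) = W * W ^ (n + i + 1) := by
      rw [← pow_succ']
      rfl
    rw [h1]
    have hzp : Submodule.span k {z ^ (i + 1)} ≤ W ^ (i + 1) := by
      rw [Submodule.span_singleton_le_iff_mem]
      exact Submodule.pow_mem_pow W hz _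
    calc W * W ^ (n + i + 1)
        ≤ W * (Y' * W ^ (n + i) ⊔ Submodule.span k {z ^ (i + 1)} * W ^ n) :=
          mulr ih
      _ = Y' * W ^ (n + i + 1) ⊔ Submodule.span k {z ^ (i + 1)} * W ^ (n + 1) := by
          rw [Submodule.mul_sup, pow_succ' W (n + i), pow_succ' W n]
          congr 1
          · rw [mul_left_comm]
          · rw [mul_left_comm]
      _ ≤ Y' * W ^ (n + i + 1) ⊔ Submodule.span k {z ^ (i + 1)} *
            (Y' * W ^ n ⊔ Submodule.span k {z} * W ^ n) :=
          sup_le_sup_left (mulr h) _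
      _ = Y' * W ^ (n + i + 1) ⊔ (Submodule.span k {z ^ (i + 1)} * (Y' * W ^ n) ⊔
            Submodule.span k {z ^ (i + 1 + 1)} * W ^ n) := by
          rw [Submodule.mul_sup, ← mul_assoc (Submodule.span k {z ^ (i + 1)})
            (Submodule.span k {z}), Submodule.span_mul_span, Set.singleton_mul_singleton,
            ← pow_succ]
      _ ≤ Y' * W ^ (n + i + 1) ⊔ (Y' * W ^ (n + i + 1) ⊔
            Submodule.span k {z ^ (i + 1 + 1)} * W ^ n) := by
          refine sup_le_sup_left (sup_le_sup_right ?_ _) _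
          calc Submodule.span k {z ^ (i + 1)} * (Y' * W ^ n) ≤ W ^ (i + 1) * (Y' * W ^ n) :=
                mull hzp
            _ = Y' * W ^ (n + i + 1) := by
                rw [mul_left_comm, ← pow_add]
                congr 2
                omega
      _ = Y' * W ^ (n + (i + 1)) ⊔ Submodule.span k {z ^ (i + 1 + 1)} * W ^ n := by
          rw [← sup_assoc, sup_idem]
          rfl

theorem nns : T_NNS := by
  intro k K _ _ _ _ W Y _ ht hYW h4 ⟨n, hn⟩
  classical
  have : Module.Finite k Y := Submodule.finiteDimensional_of_le hYW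
  set m := Module.finrank k Y with hm
  let b := Module.finBasis k Y
  let y : Fin m → K := fun i => (b i : K)
  obtain ⟨e, F, hF0, hF, hFy⟩ := rlt k K m y ht h4
  obtain ⟨c, hc⟩ : ∃ c : Fin m → k, MvPolynomial.eval c F ≠ 0 := by
    by_contra hcon
    push Not at hcon
    apply hF0
    apply MvPolynomial.funext
    intro x
    rw [hcon x, map_zero]
  obtain ⟨j, hj⟩ : ∃ j, c j ≠ 0 := by
    by_contra hcon
    push Not at hcon
    apply hc
    rw [MvPolynomial.eval_eq']
    refine Finset.sum_eq_zero fun d hd => ?_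
    have h1 := degree_of hF hd
    obtain ⟨i, hi⟩ : ∃ i, d i ≠ 0 := by
      by_contra h
      push Not at h
      simp [h] at h1
    rw [Finset.prod_eq_zero (Finset.mem_univ i), mul_zero]
    rw [hcon i, zero_pow hi]
  let z : K := (c j)⁻¹ • y j
  have hyY : ∀ i, y i ∈ Y := fun i => (b i).2
  have hzY : z ∈ Y := Y.smul_mem _ (hyY j)
  let y' : Fin m → K := fun i => y i - c i • z
  have hy'j : y' j = 0 := by
    change y j - c j • (c j)⁻¹ • y j = 0
    rw [smul_smul, mul_inv_cancel₀ hj, one_smul, sub_self]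
  let Y' := Submodule.span k (Set.range y')
  have hY'Y : Y' ≤ Y := by
    rw [Submodule.span_le]
    rintro _ ⟨i, rfl⟩
    exact Y.sub_mem (hyY i) (Y.smul_mem _ hzY)
  refine ⟨Y', hY'Y, ?_, n + e, ?_⟩
  · have h1 : Y' = Submodule.span k (Set.range fun i : {i // i ≠ j} => y' i.1) := by
      apply le_antisymm
      · rw [Submodule.span_le]
        rintro _ ⟨i, rfl⟩
        by_cases hi : i = j
        · rw [hi, hy'j]
          exact Submodule.zero_mem _
        · exact Submodule.subset_span ⟨⟨i, hi⟩, rfl⟩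
      · apply Submodule.span_mono
        rintro _ ⟨i, rfl⟩
        exact ⟨i.1, rfl⟩
    have h2 : Module.finrank k Y' ≤ Fintype.card {i : Fin m // i ≠ j} := by
      rw [h1]
      exact finrank_range_le_card _
    have h3 : Fintype.card {i : Fin m // i ≠ j} = m - 1 := by
      rw [Fintype.card_subtype_compl, Fintype.card_fin, Fintype.card_subtype_eq]
    omega
  · have hz : z ∈ W := hYW hzY
    have h1 := hom k K W m e F hF y (fun i => c i • z) (fun i => hYW (hyY i))
      (fun i => W.smul_mem _ hz)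
    rw [hFy, zero_sub, aeval_line c z hF, Submodule.neg_mem_iff] at h1
    have h2 : z ^ (e + 1) ∈ Y' * W ^ e := by
      have h3 := Submodule.smul_mem _ (MvPolynomial.eval c F)⁻¹ h1
      rw [smul_smul, inv_mul_cancel₀ hc, one_smul] at h3
      exact h3
    have hY : Y ≤ Y' ⊔ Submodule.span k {z} := by
      intro x hx
      have h3 : x ∈ Submodule.span k (Set.range y) := by
        have h4 := b.sum_repr ⟨x, hx⟩
        have h5 : x = ∑ i, b.repr ⟨x, hx⟩ i • y i := by
          have h6 := congrArg Subtype.val h4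
          rw [Submodule.coe_sum] at h6
          exact h6.symm
        rw [h5]
        exact Submodule.sum_mem _ fun i _ => Submodule.smul_mem _ _ (Submodule.subset_span ⟨i, rfl⟩)
      refine Submodule.span_le.2 ?_ h3
      rintro _ ⟨i, rfl⟩
      have h4 : y i = y' i + c i • z := by
        change y i = y i - c i • z + c i • z
        abel
      rw [h4]
      exact Submodule.add_mem_sup (Submodule.subset_span ⟨i, rfl⟩)
        (Submodule.smul_mem _ _ (Submodule.mem_span_singleton_self z))
    have h3 : W ^ (n + 1) ≤ Y' * W ^ n ⊔ Submodule.span k {z} * W ^ n := by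
      refine hn.trans ?_
      rw [← Submodule.sup_mul]
      exact mull hY
    have h4 := nns_step W Y' z hz n h3 e
    refine h4.trans (sup_le le_rfl ?_)
    calc Submodule.span k {z ^ (e + 1)} * W ^ n ≤ (Y' * W ^ e) * W ^ n := by
          refine mull ?_
          rw [Submodule.span_singleton_le_iff_mem]
          exact h2
      _ = Y' * W ^ (n + e) := by
          rw [mul_assoc, ← pow_add, add_comm e n]

theorem nn : T_NN := by
  intro k K _ _ _ _ W _ ht hW
  classical
  have key : ∀ N : ℕ, ∀ Y ≤ W, Module.finrank k Y ≤ N → (∃ n, W ^ (n + 1) ≤ Y * W ^ n) →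
      ∃ Y' ≤ W, Module.finrank k Y' ≤ 3 ∧ ∃ n, W ^ (n + 1) ≤ Y' * W ^ n := by
    intro N
    induction N with
    | zero =>
      intro Y hY hN hn
      exact ⟨Y, hY, by omega, hn⟩
    | succ N ih =>
      intro Y hY hN hn
      by_cases h4 : 4 ≤ Module.finrank k Y
      · obtain ⟨Y', hY', hlt, hn'⟩ := nns k K W Y ht hY h4 hn
        exact ih Y' (hY'.trans hY) (by omega) hn'
      · exact ⟨Y, hY, by omega, hn⟩
  obtain ⟨Y, hY, h3, n, hn⟩ := key _ W le_rfl le_rfl ⟨0, by simp⟩
  have : Module.Finite k Y := Submodule.finiteDimensional_of_le hY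
  obtain ⟨u, huW, hu0⟩ := Submodule.exists_mem_ne_zero_of_ne_bot hW
  let b := Module.finBasis k Y
  let w0 : Fin 3 → K := fun i => if h : i.1 < Module.finrank k Y then (b ⟨i.1, h⟩ : K) else 0
  let w : Fin 3 → K := fun i => if w0 i = 0 then u else w0 i
  have hw0 : ∀ i, w0 i ∈ W := by
    intro i
    change (if h : i.1 < Module.finrank k Y then (b ⟨i.1, h⟩ : K) else 0) ∈ W
    split_ifs with h
    · exact hY (b ⟨i.1, h⟩).2
    · exact W.zero_mem
  refine ⟨w, fun i => ?_, n, ?_⟩
  · change (if w0 i = 0 then u else w0 i) ≠ 0 ∧ (if w0 i = 0 then u else w0 i) ∈ W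
    split_ifs with h
    · exact ⟨hu0, huW⟩
    · exact ⟨h, hw0 i⟩
  · refine hn.trans (mull ?_)
    intro x hx
    have h4 := b.sum_repr ⟨x, hx⟩
    have h5 : x = ∑ i, b.repr ⟨x, hx⟩ i • (b i : K) := by
      have h6 := congrArg Subtype.val h4
      rw [Submodule.coe_sum] at h6
      exact h6.symm
    rw [h5]
    refine Submodule.sum_mem _ fun i _ => Submodule.smul_mem _ _ ?_
    have hi : i.1 < 3 := lt_of_lt_of_le i.2 h3
    have h7 : w0 ⟨i.1, hi⟩ = (b i : K) := by
      change (if h : i.1 < Module.finrank k Y then (b ⟨i.1, h⟩ : K) else 0) = _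
      rw [dif_pos i.2]
    by_cases h8 : w0 ⟨i.1, hi⟩ = 0
    · rw [← h7, h8]
      exact Submodule.zero_mem _
    · apply Submodule.subset_span
      refine ⟨⟨i.1, hi⟩, ?_⟩
      change (if w0 ⟨i.1, hi⟩ = 0 then u else w0 ⟨i.1, hi⟩) = _
      rw [if_neg h8, h7]

end Pool.Agent.H56.FR
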